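import Pool.Agent.H71.Patch.Local

/-!
# Frobenius elements in the absolute Galois group, lifting of primes and Frobenius elements
-/

open scoped Pointwise NumberField
open Matrix IsDedekindDomain NumberField
open Pool.Agent.H71.Patch

namespace Pool.Agent.H34.FC

variable {K : Type*} [Field K] [NumberField K]

attribute [local instance] Ideal.Quotient.field in
/-- existence of Frobenius elements in the absolute Galois group -/
theorem exists_frob {Q : Ideal (Zbar K)} {v : HeightOneSpectrum (𝓞 K)} (hQ : Above v Q) :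
    ∃ φ : GalK K, IsArithFrobAt (𝓞 K) φ Q := by
  let _ : TopologicalSpace (Zbar K) := ⊥
  have _ : DiscreteTopology (Zbar K) := ⟨rfl⟩
  have _ : ContinuousSMul (GalK K) (Zbar K) := by
    rw [continuousSMul_iff_stabilizer_isOpen]
    intro x
    have h1 := stabilizer_isOpen_of_isIntegral (K := K) (L := AlgebraicClosure K)
      (x : AlgebraicClosure K)
    convert h1 using 1
    ext g
    simp only [SetLike.mem_coe, MulAction.mem_stabilizer_iff]
    constructor
    · intro h
      exact congrArg Subtype.val h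
    · intro h
      exact Subtype.ext h
  have hprime : Q.IsPrime := hQ.1
  have hv : Q.under (𝓞 K) = v.asIdeal := hQ.2
  have hvm : (Q.under (𝓞 K)).IsMaximal := by rw [hv]; exact v.isMaximal
  have hmax : Q.IsMaximal := Ideal.isMaximal_of_isIntegral_of_isMaximal_comap (R := 𝓞 K) Q hvm
  let P := Q.under (𝓞 K)
  have hPm : P.IsMaximal := hvm
  obtain ⟨p, hc⟩ := CharP.exists (𝓞 K ⧸ P)
  have hfin : Finite (𝓞 K ⧸ P) := by
    show Finite (𝓞 K ⧸ Q.under (𝓞 K))
    rw [hv]
    exact Ideal.finiteQuotientOfFreeOfNeBot _ v.ne_bot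
  cases nonempty_fintype (𝓞 K ⧸ P)
  obtain ⟨k, hp, hk⟩ := FiniteField.card (𝓞 K ⧸ P) p
  have := CharP.of_ringHom_of_ne_zero (algebraMap (𝓞 K ⧸ P) (Zbar K ⧸ Q)) p hp.ne_zero
  have hexp : ExpChar (Zbar K ⧸ Q) p := .prime hp
  have halg : Algebra.IsAlgebraic (𝓞 K ⧸ P) (Zbar K ⧸ Q) :=
    Algebra.IsIntegral.isAlgebraic
  have hperf : PerfectField (Zbar K ⧸ Q) := Algebra.IsAlgebraic.perfectField (𝓞 K ⧸ P)
  have hpr : PerfectRing (Zbar K ⧸ Q) p := PerfectField.toPerfectRing p
  let l : (Zbar K ⧸ Q) ≃ₐ[𝓞 K ⧸ P] Zbar K ⧸ Q :=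
    { __ := iterateFrobeniusEquiv (Zbar K ⧸ Q) p k,
      commutes' r := by
        dsimp [iterateFrobenius_def]
        rw [← map_pow, ← hk, FiniteField.pow_card] }
  obtain ⟨σ, hσ⟩ := Ideal.Quotient.stabilizerHom_surjective_of_profinite (G := GalK K) P Q l
  refine ⟨σ, fun x ↦ ?_⟩
  rw [← Ideal.Quotient.eq, Nat.card_eq_fintype_card, hk]
  exact DFunLike.congr_fun hσ (Ideal.Quotient.mk Q x)

section Lift

variable (M : IntermediateField K (AlgebraicClosure K))

/-- the integers of `M` inside the algebraic integers -/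
noncomputable def incl : 𝓞 M →+* Zbar K where
  toFun x := ⟨((x : M) : AlgebraicClosure K), by
    have h1 : IsIntegral ℤ ((x : M) : AlgebraicClosure K) :=
      (RingOfIntegers.isIntegral_coe x).map (M.val.restrictScalars ℤ)
    exact h1.tower_top⟩
  map_one' := rfl
  map_mul' _ _ := rfl
  map_zero' := rfl
  map_add' _ _ := rfl

variable {M}

omit [NumberField K] in
lemma incl_coe (x : 𝓞 M) : ((incl M x : Zbar K) : AlgebraicClosure K) = ((x : M) : AlgebraicClosure K) :=
  rfl

omit [NumberField K] in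
lemma incl_injective : Function.Injective (incl M) := by
  intro x y h
  have h1 := congrArg (Subtype.val) h
  rw [incl_coe, incl_coe] at h1
  exact RingOfIntegers.ext (Subtype.ext h1)

omit [NumberField K] in
lemma incl_algebraMap (x : 𝓞 K) : incl M (algebraMap (𝓞 K) (𝓞 M) x) = algebraMap (𝓞 K) (Zbar K) x :=
  rfl

omit [NumberField K] in
lemma incl_smul [IsGalois K M] (g : GalK K) (x : 𝓞 M) :
    incl M (AlgEquiv.restrictNormalHom M g • x) = g • incl M x := by
  apply Subtype.ext
  show ((AlgEquiv.restrictNormalHom M g (x : M) : M) : AlgebraicClosure K) =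
    g ((x : M) : AlgebraicClosure K)
  exact AlgEquiv.restrictNormal_commutes g M (x : M)

/-- **Lifting of primes and Frobenius elements.** -/
theorem lift_prime [NumberField M] [IsGalois K M] (W : HeightOneSpectrum (𝓞 M))
    (v : HeightOneSpectrum (𝓞 K)) (h : W.asIdeal.LiesOver v.asIdeal) :
    ∃ Q : Ideal (Zbar K), Above v Q ∧
      (∀ g ∈ Dec Q, AlgEquiv.restrictNormalHom M g ∈ MulAction.stabilizer Gal(M/K) W.asIdeal) ∧
      ∃ φ : GalK K, IsArithFrobAt (𝓞 K) φ Q ∧
        IsArithFrobAt (𝓞 K) (AlgEquiv.restrictNormalHom M φ) W.asIdeal := by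
  have hWp : W.asIdeal.IsPrime := W.isPrime
  let _ : Algebra (𝓞 M) (Zbar K) := (incl M).toAlgebra
  have _ : IsScalarTower (𝓞 K) (𝓞 M) (Zbar K) := IsScalarTower.of_algebraMap_eq' rfl
  have hint : Algebra.IsIntegral (𝓞 M) (Zbar K) :=
    ⟨fun x => (Algebra.IsIntegral.isIntegral (R := 𝓞 K) x).tower_top⟩
  obtain ⟨Q, -, hQp, hQW⟩ := Ideal.exists_ideal_over_prime_of_isIntegral W.asIdeal
    (⊥ : Ideal (Zbar K)) (by
      intro x hx
      rw [Ideal.mem_comap, Ideal.mem_bot] at hx
      have h1 : incl M x = incl M 0 := by rw [map_zero]; exact hx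
      rw [incl_injective h1]
      exact W.asIdeal.zero_mem)
  have hmem : ∀ x : 𝓞 M, x ∈ W.asIdeal ↔ incl M x ∈ Q := by
    intro x
    rw [← hQW]
    exact Iff.rfl
  have hund : Q.under (𝓞 K) = v.asIdeal := by
    rw [h.over, ← hQW]
    rfl
  have hA : Above v Q := ⟨hQp, hund⟩
  refine ⟨Q, hA, ?_, ?_⟩
  · intro g hg
    rw [MulAction.mem_stabilizer_iff] at hg ⊢
    ext x
    rw [Ideal.mem_pointwise_smul_iff_inv_smul_mem, hmem, hmem, ← map_inv, incl_smul]
    conv_rhs => rw [← hg, Ideal.mem_pointwise_smul_iff_inv_smul_mem]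
  · obtain ⟨φ, hφ⟩ := exists_frob hA
    refine ⟨φ, hφ, ?_⟩
    intro x
    have h1 := hφ (incl M x)
    have h2 : W.asIdeal.under (𝓞 K) = Q.under (𝓞 K) := by rw [hund, h.over]
    rw [hmem, map_sub, map_pow, h2]
    have h3 : incl M (MulSemiringAction.toAlgHom (𝓞 K) (𝓞 M) (AlgEquiv.restrictNormalHom M φ) x) =
        φ • incl M x := incl_smul φ x
    rw [h3]
    exact h1

end Lift

end Pool.Agent.H34.FC
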