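import Mathlib
import Pool.Agent.H98.C1.Gen

/-!
# Primes of an intermediate field and decomposition groups

`L / K` a Galois extension of number fields, `D` a subgroup of the Galois group, `E` its fixed field.
-/

open NumberField IsDedekindDomain Module
open Pool.Agent.H7.Artin Pool.Agent.H31.CF
open scoped nonZeroDivisors Pointwise

namespace Pool.Agent.H34.FC

variable {K L : Type} [Field K] [NumberField K] [Field L] [NumberField L] [Algebra K L]
  [IsGalois K L] (D : Subgroup Gal(L/K))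

/-- the fixed field -/
noncomputable abbrev FF : IntermediateField K L := IntermediateField.fixedField D

instance : IsGaloisGroup D (FF D) L :=
  inferInstanceAs (IsGaloisGroup D (FixedPoints.intermediateField D : IntermediateField K L) L)

instance : IsGaloisGroup D (𝓞 (FF D)) (𝓞 L) :=
  IsGaloisGroup.of_isFractionRing D (𝓞 (FF D)) (𝓞 L) (FF D) L

variable {D}

/-- the decomposition group of an unramified prime has order the residue degree -/
theorem card_stab (W : HeightOneSpectrum (𝓞 L)) (v : HeightOneSpectrum (𝓞 K))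
    (hWv : W.asIdeal.LiesOver v.asIdeal) (hv : Unr K L v) :
    Nat.card (MulAction.stabilizer Gal(L/K) W.asIdeal) = W.asIdeal.inertiaDeg (𝓞 K) := by
  have h1 : v.asIdeal.IsPrime := v.isPrime
  have h2 : W.asIdeal.IsPrime := W.isPrime
  have h3 := Ideal.card_stabilizer_eq_card_inertia_mul_finrank (G := Gal(L/K)) v.asIdeal W.asIdeal
  have h4 : Nat.card (W.asIdeal.inertia Gal(L/K)) = 1 := by
    have h7 : W.asIdeal.inertia Gal(L/K) = ⊥ := hv W hWv
    rw [h7, Subgroup.card_bot]
  rw [h3, h4, one_mul]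

/-- the decomposition group over the fixed field -/
theorem card_stab_inf (W : HeightOneSpectrum (𝓞 L)) (w : HeightOneSpectrum (𝓞 (FF D)))
    (v : HeightOneSpectrum (𝓞 K)) (hWw : W.asIdeal.LiesOver w.asIdeal)
    (hwv : w.asIdeal.LiesOver v.asIdeal) (hv : Unr K L v) :
    Nat.card (MulAction.stabilizer Gal(L/K) W.asIdeal ⊓ D : Subgroup Gal(L/K)) =
      W.asIdeal.inertiaDeg (𝓞 (FF D)) := by
  have h1 : w.asIdeal.IsPrime := w.isPrime
  have h2 : W.asIdeal.IsPrime := W.isPrime
  have hWv : W.asIdeal.LiesOver v.asIdeal := Ideal.LiesOver.trans W.asIdeal w.asIdeal v.asIdeal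
  have h3 := Ideal.card_stabilizer_eq_card_inertia_mul_finrank (G := D) w.asIdeal W.asIdeal
  have h4 : Nat.card (W.asIdeal.inertia D) = 1 := by
    have h7 : W.asIdeal.inertia Gal(L/K) = ⊥ := hv W hWv
    have h8 : W.asIdeal.inertia D = ⊥ := by
      rw [eq_bot_iff]
      intro x hx
      have h9 : (x : Gal(L/K)) ∈ W.asIdeal.inertia Gal(L/K) := fun y => hx y
      rw [h7, Subgroup.mem_bot] at h9
      rw [Subgroup.mem_bot]
      exact Subtype.ext h9
    rw [h8, Subgroup.card_bot]
  rw [h4, one_mul] at h3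
  rw [← h3, ← Nat.card_congr (Subgroup.subgroupOfEquivOfLe (inf_le_right :
    MulAction.stabilizer Gal(L/K) W.asIdeal ⊓ D ≤ D)).toEquiv, Subgroup.inf_subgroupOf_right]
  exact Nat.card_congr (Equiv.subtypeEquivRight (fun x => Iff.rfl))

theorem inertiaDeg_pos' (W : HeightOneSpectrum (𝓞 L)) (v : HeightOneSpectrum (𝓞 K))
    (hWv : W.asIdeal.LiesOver v.asIdeal) (hv : Unr K L v) : 0 < W.asIdeal.inertiaDeg (𝓞 K) := by
  rw [← card_stab W v hWv hv]
  exact Nat.card_pos

/-- The decomposition group of `W` is contained in `D` if and only if the prime of the fixed field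
below `W` has residue degree one over `K`. -/
theorem stab_le_iff (W : HeightOneSpectrum (𝓞 L)) (w : HeightOneSpectrum (𝓞 (FF D)))
    (v : HeightOneSpectrum (𝓞 K)) (hWw : W.asIdeal.LiesOver w.asIdeal)
    (hwv : w.asIdeal.LiesOver v.asIdeal) (hv : Unr K L v) :
    MulAction.stabilizer Gal(L/K) W.asIdeal ≤ D ↔ w.asIdeal.inertiaDeg (𝓞 K) = 1 := by
  have hWv : W.asIdeal.LiesOver v.asIdeal := Ideal.LiesOver.trans W.asIdeal w.asIdeal v.asIdeal
  have h1 := card_stab W v hWv hv
  have h2 := card_stab_inf W w v hWw hwv hv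
  have h3 : W.asIdeal.inertiaDeg (𝓞 K) =
      w.asIdeal.inertiaDeg (𝓞 K) * W.asIdeal.inertiaDeg (𝓞 (FF D)) :=
    Ideal.inertiaDeg_tower w.asIdeal W.asIdeal
  have h4 := inertiaDeg_pos' W v hWv hv
  constructor
  · intro h
    rw [inf_eq_left.mpr h, h1, h3] at h2
    rw [h3] at h4
    exact Nat.eq_of_mul_eq_mul_right (Nat.pos_of_mul_pos_left h4) (by rw [h2, one_mul])
  · intro h
    rw [h, one_mul] at h3
    rw [← h3, ← h1] at h2
    have h5 : (MulAction.stabilizer Gal(L/K) W.asIdeal ⊓ D : Subgroup Gal(L/K)) =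
        MulAction.stabilizer Gal(L/K) W.asIdeal :=
      Subgroup.eq_of_le_of_card_ge inf_le_left h2.ge
    rw [← h5]
    exact inf_le_right

/-- The number of primes above a prime of degree one. -/
theorem card_fibre (w : HeightOneSpectrum (𝓞 (FF D))) (v : HeightOneSpectrum (𝓞 K))
    (hwv : w.asIdeal.LiesOver v.asIdeal) (hv : Unr K L v)
    (h1 : w.asIdeal.inertiaDeg (𝓞 K) = 1) (W : HeightOneSpectrum (𝓞 L))
    (hWw : W.asIdeal.LiesOver w.asIdeal) :
    {W' : HeightOneSpectrum (𝓞 L) | W'.asIdeal.LiesOver w.asIdeal}.ncard *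
      Nat.card (MulAction.stabilizer Gal(L/K) W.asIdeal) = Nat.card D := by
  have hp1 : w.asIdeal.IsPrime := w.isPrime
  have hp2 : W.asIdeal.IsPrime := W.isPrime
  have hWv : W.asIdeal.LiesOver v.asIdeal := Ideal.LiesOver.trans W.asIdeal w.asIdeal v.asIdeal
  have h3 := Ideal.ncard_primesOver_mul_card_inertia_mul_finrank (G := D) w.asIdeal W.asIdeal
  have h4 : Nat.card (W.asIdeal.inertia D) = 1 := by
    have h7 : W.asIdeal.inertia Gal(L/K) = ⊥ := hv W hWv
    have h8 : W.asIdeal.inertia D = ⊥ := by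
      rw [eq_bot_iff]
      intro x hx
      have h9 : (x : Gal(L/K)) ∈ W.asIdeal.inertia Gal(L/K) := fun y => hx y
      rw [h7, Subgroup.mem_bot] at h9
      rw [Subgroup.mem_bot]
      exact Subtype.ext h9
    rw [h8, Subgroup.card_bot]
  have h5 : W.asIdeal.inertiaDeg (𝓞 K) =
      w.asIdeal.inertiaDeg (𝓞 K) * W.asIdeal.inertiaDeg (𝓞 (FF D)) :=
    Ideal.inertiaDeg_tower w.asIdeal W.asIdeal
  rw [h1, one_mul] at h5
  rw [h4, mul_one, ← h5, ← card_stab W v hWv hv] at h3
  rw [← h3]
  congr 1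
  have h6 : (fun W' : HeightOneSpectrum (𝓞 L) => W'.asIdeal) ''
      {W' : HeightOneSpectrum (𝓞 L) | W'.asIdeal.LiesOver w.asIdeal} =
        w.asIdeal.primesOver (𝓞 L) := by
    ext P
    constructor
    · rintro ⟨W', hW', rfl⟩
      exact ⟨W'.isPrime, hW'⟩
    · rintro ⟨hP, hPw⟩
      refine ⟨⟨P, hP, ?_⟩, hPw, rfl⟩
      intro h0
      have h8 := hPw.over
      rw [h0, Ideal.under_bot] at h8
      exact w.ne_bot h8
  rw [← h6, Set.ncard_image_of_injective]
  intro a b hab
  exact HeightOneSpectrum.ext hab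

/-- decomposition groups of primes above the same prime have the same order -/
theorem card_stab_eq (W W' : HeightOneSpectrum (𝓞 L)) (v : HeightOneSpectrum (𝓞 K))
    (hW : W.asIdeal.LiesOver v.asIdeal) (hW' : W'.asIdeal.LiesOver v.asIdeal) :
    Nat.card (MulAction.stabilizer Gal(L/K) W.asIdeal) =
      Nat.card (MulAction.stabilizer Gal(L/K) W'.asIdeal) := by
  have h1 : v.asIdeal.IsPrime := v.isPrime
  have h2 : W.asIdeal.IsPrime := W.isPrime
  have h3 : W'.asIdeal.IsPrime := W'.isPrime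
  rw [Ideal.card_stabilizer_eq v.asIdeal, Ideal.card_stabilizer_eq v.asIdeal]

end Pool.Agent.H34.FC
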