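import Pool.Agent.H34.FC.Lift
import Pool.Agent.H29.C3.FrOrd
import Pool.Agent.H19.OD.Defs

/-!
# Frobenius elements in the absolute Galois group from prescribed decomposition groups
-/

open scoped Pointwise NumberField
open Matrix IsDedekindDomain NumberField
open Pool.Agent.H71.Patch
open Pool.Agent.H7.Artin Pool.Agent.H31.CF

namespace Pool.Agent.H34.FC

/-- every cyclic subgroup is the decomposition group of an unramified prime outside a given finite
set -/
def StabStmt : Prop :=
  ∀ (K L : Type) [Field K] [NumberField K] [Field L] [NumberField L] [Algebra K L] [IsGalois K L]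
    (T : Set (HeightOneSpectrum (𝓞 K))), T.Finite → ∀ c : Gal(L/K),
      ∃ v : HeightOneSpectrum (𝓞 K), v ∉ T ∧ Unr K L v ∧ ∃ W : HeightOneSpectrum (𝓞 L),
        W.asIdeal.LiesOver v.asIdeal ∧
          MulAction.stabilizer Gal(L/K) W.asIdeal = Subgroup.zpowers c

theorem zpowers_eq {F E : Type} [Field F] [NumberField F] [Field E] [NumberField E] [Algebra F E]
    [IsGalois F E] {v : HeightOneSpectrum (𝓞 F)} (hv : Unr F E v) {w : HeightOneSpectrum (𝓞 E)}
    (hw : w.asIdeal.LiesOver v.asIdeal) {φ : Gal(E/F)} (hφ : IsArithFrobAt (𝓞 F) φ w.asIdeal) :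
    Subgroup.zpowers φ = MulAction.stabilizer Gal(E/F) w.asIdeal := by
  have hwp : w.asIdeal.IsPrime := w.isPrime
  have h1 : φ = frob F E w := by
    have h2 := hφ.mul_inv_mem_inertia (H29.C3.isArithFrob_frob F E w)
    have h3 : w.asIdeal.inertia Gal(E/F) = ⊥ := hv w hw
    rw [h3, Subgroup.mem_bot] at h2
    exact mul_inv_eq_one.mp h2
  apply Subgroup.eq_of_le_of_card_ge
  · rw [Subgroup.zpowers_le]
    exact hφ.mem_stabilizer
  · rw [Nat.card_zpowers, h1, H29.C3.orderOf_frob F E v hv w hw]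
    have h4 : v.asIdeal.IsPrime := v.isPrime
    have h5 := Ideal.card_stabilizer_eq_card_inertia_mul_finrank (G := Gal(E/F)) v.asIdeal w.asIdeal
    have h6 : Nat.card (w.asIdeal.inertia Gal(E/F)) = 1 := by
      have h7 : w.asIdeal.inertia Gal(E/F) = ⊥ := hv w hw
      rw [h7, Subgroup.card_bot]
    rw [h5, h6, one_mul]

theorem frobDiv (h : StabStmt) (K : Type) [Field K] [NumberField K] : Pool.Agent.H19.OD.FrobDiv K := by
  classical
  intro M hM hG S hS x
  have _ : NumberField M := NumberField.of_module_finite K M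
  obtain ⟨v, hvS, hv, W, hW, hst⟩ := h K M S hS (AlgEquiv.restrictNormalHom M x)
  obtain ⟨Q, hQ, hdec, φ, hφ, hφW⟩ := lift_prime W v hW
  have hker : (AlgEquiv.restrictNormalHom M : GalK K →* Gal(M/K)).ker = M.fixingSubgroup :=
    IntermediateField.restrictNormalHom_ker M
  refine ⟨v, hvS, Q, hQ, ?_, φ, hφ, ?_⟩
  · intro g hg
    have h1 := hdec g hg
    rw [hst] at h1
    obtain ⟨k, hk⟩ := h1
    have h2 : (x ^ k)⁻¹ * g ∈ M.fixingSubgroup := by
      rw [← hker, MonoidHom.mem_ker, map_mul, map_inv, map_zpow]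
      have h3 : AlgEquiv.restrictNormalHom M x ^ k = AlgEquiv.restrictNormalHom M g := hk
      rw [h3, inv_mul_cancel]
    have h4 : g = x ^ k * ((x ^ k)⁻¹ * g) := by group
    rw [h4]
    exact Subgroup.mul_mem_sup (Subgroup.zpow_mem _ (Subgroup.mem_zpowers x) k) h2
  · have h1 := zpowers_eq hv hW hφW
    rw [hst] at h1
    have h2 : AlgEquiv.restrictNormalHom M x ∈
        Subgroup.zpowers (AlgEquiv.restrictNormalHom M φ) := by
      rw [h1]
      exact Subgroup.mem_zpowers _
    rw [mem_zpowers_iff_mem_range_orderOf, Finset.mem_image] at h2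
    obtain ⟨k, -, hk⟩ := h2
    refine ⟨k, ?_⟩
    rw [← hker, MonoidHom.mem_ker, map_mul, map_inv, map_pow, hk, inv_mul_cancel]

end Pool.Agent.H34.FC
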